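import Mathlib

/-!
# MP_85e029_nt: `X^m(γ)` need not be relatively dense when `m > |γ|² - 1`

Let `|γ| > 2` and suppose that `γ, γ², γ³` lie in the closed right half-plane. For `m ≤ |γ|²` every
sum `v = ∑ b_t γ^{-t}`, `0 ≤ b_t ≤ m`, satisfies `Re v ≥ b_0 - 1 / (|γ| (|γ| - 1))`. Hence all points
of `X^m(γ)` have distance at least `c |γ|^N` from `-γ^N`, for a constant `c > 0` and all `N`.
-/

set_option autoImplicit false

open Finset

namespace Pool.Agent.Results.MP_85e029_nt.NotRelativelyDense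

/-- `X^m(q)`: the values at `q` of the polynomials with digits `0, 1, …, m`. -/
def digitPolynomials (m : ℕ) (q : ℂ) : Set ℂ :=
  {z | ∃ (n : ℕ) (a : ℕ → ℕ), (∀ j, a j ≤ m) ∧ z = ∑ j ∈ range (n + 1), (a j : ℂ) * q ^ j}

/-- `S` is relatively dense in `ℂ`: for some `R > 0` every closed disc of radius `R` meets `S`. -/
def RelativelyDense (S : Set ℂ) : Prop :=
  ∃ R : ℝ, 0 < R ∧ ∀ z : ℂ, (Metric.closedBall z R ∩ S).Nonempty

/-- `γ` is a complex Pisot unit: a non-real algebraic integer which is an algebraic unit, with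
`|γ| > 1`, all of whose Galois conjugates other than `γ` and its complex conjugate have
modulus `< 1`. -/
def IsComplexPisotUnit (γ : ℂ) : Prop :=
  IsIntegral ℤ γ ∧ IsIntegral ℤ γ⁻¹ ∧ γ.im ≠ 0 ∧ 1 < ‖γ‖ ∧
    ∀ z : ℂ, Polynomial.aeval z (minpoly ℚ γ) = 0 → z = γ ∨ z = (starRingEnd ℂ) γ ∨ ‖z‖ < 1

lemma re_inv_nonneg {z : ℂ} (h : 0 ≤ z.re) : 0 ≤ (z⁻¹).re := by
  rw [Complex.inv_re]
  exact div_nonneg h (Complex.normSq_nonneg z)

lemma re_inv_pow_ge (γ : ℂ) (t : ℕ) : -(‖γ‖⁻¹) ^ t ≤ ((γ ^ t)⁻¹).re := by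
  have h1 := Complex.abs_re_le_norm ((γ ^ t)⁻¹)
  rw [norm_inv, norm_pow] at h1
  rw [inv_pow]
  exact (abs_le.mp h1).1

/-- the main estimate -/
lemma re_sum_ge (γ : ℂ) (h2 : 2 < ‖γ‖) (hre : ∀ t ≤ 3, 0 ≤ (γ ^ t).re) (m : ℕ)
    (hm : (m : ℝ) ≤ ‖γ‖ ^ 2) (b : ℕ → ℕ) (hb : ∀ t, b t ≤ m) (k : ℕ) :
    (b 0 : ℝ) - (1 - (‖γ‖⁻¹) ^ k) / (‖γ‖ * (‖γ‖ - 1)) ≤
      (∑ t ∈ range (4 + k), (b t : ℂ) * (γ ^ t)⁻¹).re := by
  set r := ‖γ‖ with hr
  have hr0 : 0 < r := by linarith
  have hr1 : 0 < r - 1 := by linarith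
  induction k with
  | zero =>
    simp only [pow_zero, sub_self, zero_div, sub_zero, add_zero]
    rw [Complex.re_sum]
    have h0 : ∀ t ∈ range 4, 0 ≤ ((b t : ℂ) * (γ ^ t)⁻¹).re := by
      intro t ht
      rw [mem_range] at ht
      have := re_inv_nonneg (hre t (by omega))
      rw [← Complex.ofReal_natCast, Complex.re_ofReal_mul]
      positivity
    have h1 := Finset.single_le_sum h0 (mem_range.mpr (by norm_num : 0 < 4))
    simpa using h1
  | succ k ih =>
    rw [← add_assoc, sum_range_succ, Complex.add_re]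
    have h1 : -(r ^ 2 * (r⁻¹) ^ (4 + k)) ≤ ((b (4 + k) : ℂ) * (γ ^ (4 + k))⁻¹).re := by
      rw [← Complex.ofReal_natCast, Complex.re_ofReal_mul]
      have h2 := re_inv_pow_ge γ (4 + k)
      rw [← hr] at h2
      have h3 : (b (4 + k) : ℝ) ≤ r ^ 2 := by
        refine le_trans ?_ hm
        exact_mod_cast hb (4 + k)
      have h4 : 0 ≤ (b (4 + k) : ℝ) := by positivity
      have h5 : 0 < (r⁻¹) ^ (4 + k) := by positivity
      nlinarith
    have h6 : (1 - (r⁻¹) ^ (k + 1)) / (r * (r - 1)) =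
        (1 - (r⁻¹) ^ k) / (r * (r - 1)) + r ^ 2 * (r⁻¹) ^ (4 + k) := by
      have : r⁻¹ ^ (4 + k) = r⁻¹ ^ 4 * r⁻¹ ^ k := pow_add _ _ _
      rw [this, pow_succ]
      field_simp
      ring
    rw [h6]
    linarith

/-- all points of `X^m(γ)` are far from `-γ^N` -/
lemma far (γ : ℂ) (h2 : 2 < ‖γ‖) (hre : ∀ t ≤ 3, 0 ≤ (γ ^ t).re) (m : ℕ)
    (hm : (m : ℝ) ≤ ‖γ‖ ^ 2) : ∃ c : ℝ, 0 < c ∧ ∀ (N n : ℕ) (a : ℕ → ℕ), (∀ j, a j ≤ m) →
      c * ‖γ‖ ^ N ≤ ‖∑ j ∈ range (n + 1), (a j : ℂ) * γ ^ j + γ ^ N‖ := by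
  set r := ‖γ‖ with hr
  have hr0 : 0 < r := by linarith
  have hr1 : 0 < r - 1 := by linarith
  have hγ0 : γ ≠ 0 := by
    intro h
    rw [h, norm_zero] at hr
    linarith
  have hrr : 0 < r * (r - 1) := by positivity
  have hrr2 : 1 / (r * (r - 1)) < 1 / 2 := by
    apply one_div_lt_one_div_of_lt (by norm_num)
    nlinarith
  -- reversal
  have hrev : ∀ (M : ℕ) (a : ℕ → ℕ),
      ∑ j ∈ range (M + 1), (a j : ℂ) * γ ^ j =
        γ ^ M * ∑ t ∈ range (4 + M), ((if t ≤ M then a (M - t) else 0 : ℕ) : ℂ) * (γ ^ t)⁻¹ := by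
    intro M a
    rw [mul_sum]
    have hsub : range (M + 1) ⊆ range (4 + M) := range_subset_range.mpr (by omega)
    rw [← sum_subset hsub]
    · rw [← sum_range_reflect]
      apply sum_congr rfl
      intro t ht
      rw [mem_range] at ht
      rw [if_pos (by omega)]
      have e1 : M + 1 - 1 - t = M - t := by omega
      rw [e1]
      have e2 : γ ^ M = γ ^ (M - t) * γ ^ t := by rw [← pow_add]; congr 1; omega
      rw [e2]
      have : γ ^ t ≠ 0 := pow_ne_zero _ hγ0
      field_simp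
    · intro t ht ht'
      rw [mem_range] at ht ht'
      rw [if_neg (by omega)]
      simp
  have hest : ∀ (M : ℕ) (a : ℕ → ℕ), (∀ j, a j ≤ m) →
      (a M : ℝ) - 1 / (r * (r - 1)) ≤ (∑ t ∈ range (4 + M),
        ((if t ≤ M then a (M - t) else 0 : ℕ) : ℂ) * (γ ^ t)⁻¹).re := by
    intro M a ha
    have h := re_sum_ge γ h2 hre m hm (fun t => if t ≤ M then a (M - t) else 0) (by
      intro t
      split_ifs
      · exact ha _
      · exact Nat.zero_le _) M
    rw [← hr] at h
    refine le_trans ?_ h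
    simp only [Nat.zero_le, if_true, Nat.sub_zero]
    have h3 : (1 - r⁻¹ ^ M) / (r * (r - 1)) ≤ 1 / (r * (r - 1)) := by
      apply div_le_div_of_nonneg_right _ hrr.le
      have : 0 < r⁻¹ ^ M := by positivity
      linarith
    linarith
  refine ⟨min (1 / 2) (r - 1 - 1 / (r - 1)), ?_, ?_⟩
  · apply lt_min (by norm_num)
    have : 1 / (r - 1) < 1 := by
      rw [div_lt_one hr1]
      linarith
    linarith
  · intro N n
    induction n with
    | zero =>
      intro a ha
      -- use the bound with the indices up to `N`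
      have h0 : ∑ j ∈ range (0 + 1), (a j : ℂ) * γ ^ j =
          ∑ j ∈ range (N + 1), ((if j = 0 then a 0 else 0 : ℕ) : ℂ) * γ ^ j := by
        rw [zero_add, sum_range_one, sum_eq_single_of_mem 0 (mem_range.mpr (by omega))]
        · simp
        · intro j _ hj
          simp [hj]
      rw [h0, hrev N]
      have h1 := hest N (fun j => if j = 0 then a 0 else 0) (by
        intro j
        split_ifs
        · exact ha _
        · exact Nat.zero_le _)
      set v := ∑ t ∈ range (4 + N),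
        ((if t ≤ N then (fun j => if j = 0 then a 0 else 0) (N - t) else 0 : ℕ) : ℂ) * (γ ^ t)⁻¹
        with hv
      have h2 : γ ^ N * v + γ ^ N = γ ^ N * (v + 1) := by ring
      rw [h2, norm_mul, norm_pow, ← hr, mul_comm]
      apply mul_le_mul_of_nonneg_left _ (by positivity)
      refine (min_le_left _ _).trans ?_
      have h3 : (v + 1).re ≤ ‖v + 1‖ := Complex.re_le_norm _
      rw [Complex.add_re, Complex.one_re] at h3
      have h4 : (0 : ℝ) ≤ (((fun j => if j = 0 then a 0 else 0) N : ℕ) : ℝ) := Nat.cast_nonneg _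
      linarith
    | succ n ih =>
      intro a ha
      rcases le_or_gt (n + 1) N with hnN | hnN
      · -- top index at most `N`
        have h0 : ∑ j ∈ range (n + 1 + 1), (a j : ℂ) * γ ^ j =
            ∑ j ∈ range (N + 1), ((if j ≤ n + 1 then a j else 0 : ℕ) : ℂ) * γ ^ j := by
          have hsub : range (n + 1 + 1) ⊆ range (N + 1) := range_subset_range.mpr (by omega)
          rw [← sum_subset hsub]
          · apply sum_congr rfl
            intro j hj
            rw [mem_range] at hj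
            rw [if_pos (by omega)]
          · intro j hj hj'
            rw [mem_range] at hj hj'
            rw [if_neg (by omega)]
            simp
        rw [h0, hrev N]
        have h1 := hest N (fun j => if j ≤ n + 1 then a j else 0) (by
          intro j
          split_ifs
          · exact ha _
          · exact Nat.zero_le _)
        set v := ∑ t ∈ range (4 + N),
          ((if t ≤ N then (fun j => if j ≤ n + 1 then a j else 0) (N - t) else 0 : ℕ) : ℂ) *
            (γ ^ t)⁻¹ with hv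
        have h2 : γ ^ N * v + γ ^ N = γ ^ N * (v + 1) := by ring
        rw [h2, norm_mul, norm_pow, ← hr, mul_comm]
        apply mul_le_mul_of_nonneg_left _ (by positivity)
        refine (min_le_left _ _).trans ?_
        have h3 : (v + 1).re ≤ ‖v + 1‖ := Complex.re_le_norm _
        rw [Complex.add_re, Complex.one_re] at h3
        have h4 : (0 : ℝ) ≤ (((fun j => if j ≤ n + 1 then a j else 0) N : ℕ) : ℝ) :=
          Nat.cast_nonneg _
        linarith
      · rcases Nat.eq_zero_or_pos (a (n + 1)) with ha0 | ha0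
        · rw [sum_range_succ, ha0]
          simp only [Nat.cast_zero, zero_mul, add_zero]
          exact ih a ha
        · rw [hrev (n + 1)]
          have h1 := hest (n + 1) a ha
          set v := ∑ t ∈ range (4 + (n + 1)),
            ((if t ≤ n + 1 then a (n + 1 - t) else 0 : ℕ) : ℂ) * (γ ^ t)⁻¹ with hv
          have h3 : v.re ≤ ‖v‖ := Complex.re_le_norm _
          have h4 : (1 : ℝ) ≤ (a (n + 1) : ℝ) := by exact_mod_cast ha0
          have h5 : 1 - 1 / (r * (r - 1)) ≤ ‖v‖ := by linarith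
          have h6 : ‖γ ^ (n + 1) * v‖ - ‖γ ^ N‖ ≤ ‖γ ^ (n + 1) * v + γ ^ N‖ := by
            have := norm_sub_le_norm_add (γ ^ (n + 1) * v) (γ ^ N)
            exact this
          refine le_trans ?_ h6
          rw [norm_mul, norm_pow, norm_pow, ← hr]
          have h7 : r ^ (N + 1) ≤ r ^ (n + 1) := pow_le_pow_right₀ (by linarith) (by omega)
          have h8 : r ^ (N + 1) * (1 - 1 / (r * (r - 1))) ≤ r ^ (n + 1) * ‖v‖ := by
            apply mul_le_mul h7 h5 (by linarith) (by positivity)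
          have h9 : r ^ (N + 1) * (1 - 1 / (r * (r - 1))) - r ^ N =
              (r - 1 - 1 / (r - 1)) * r ^ N := by
            rw [pow_succ]
            field_simp
            ring
          have h10 : min (1 / 2) (r - 1 - 1 / (r - 1)) * r ^ N ≤
              (r - 1 - 1 / (r - 1)) * r ^ N :=
            mul_le_mul_of_nonneg_right (min_le_right _ _) (by positivity)
          linarith

/-- the general criterion -/
theorem criterion (γ : ℂ) (h2 : 2 < ‖γ‖) (hre : ∀ t ≤ 3, 0 ≤ (γ ^ t).re) (m : ℕ)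
    (hm : (m : ℝ) ≤ ‖γ‖ ^ 2) : ¬ RelativelyDense (digitPolynomials m γ) := by
  rintro ⟨R, hR, h⟩
  obtain ⟨c, hc, hfar⟩ := far γ h2 hre m hm
  obtain ⟨N, hN⟩ := pow_unbounded_of_one_lt (R / c) (by linarith : 1 < ‖γ‖)
  obtain ⟨z, hz1, n, a, ha, hz⟩ := h (-γ ^ N)
  rw [Metric.mem_closedBall, dist_eq_norm, sub_neg_eq_add] at hz1
  have h1 := hfar N n a ha
  rw [← hz] at h1
  rw [div_lt_iff₀ hc] at hN
  linarith

lemma gaussian : ¬ RelativelyDense (digitPolynomials 5 (2 + Complex.I)) := by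
  have hn : ‖(2 + Complex.I : ℂ)‖ ^ 2 = 5 := by
    rw [← Complex.normSq_eq_norm_sq, Complex.normSq_apply]
    simp
    norm_num
  apply criterion
  · have := norm_nonneg (2 + Complex.I : ℂ)
    nlinarith
  · intro t ht
    interval_cases t
    · simp
    · simp
    · simp [pow_two]
      norm_num
    · simp [pow_succ]
      norm_num
  · rw [hn]
    norm_num

/-- a cubic complex Pisot unit, a root of `x³ - 4x² + 5x - 1` -/
lemma pisot : ∃ γ : ℂ, IsComplexPisotUnit γ ∧ ‖γ‖ ^ 2 - 1 < (4 : ℕ) ∧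
    ¬ RelativelyDense (digitPolynomials 4 γ) := by
  have hcont : Continuous (fun x : ℝ => x ^ 3 - 4 * x ^ 2 + 5 * x - 1) := by fun_prop
  obtain ⟨ρ, ⟨hρ1, hρ2⟩, hρ⟩ : (0 : ℝ) ∈ (fun x : ℝ => x ^ 3 - 4 * x ^ 2 + 5 * x - 1) ''
      Set.Icc (6 / 25) (1 / 4) := by
    apply intermediate_value_Icc (by norm_num) hcont.continuousOn
    constructor <;> norm_num
  simp only at hρ
  have hρ3 : ρ < 1 / 4 := by
    rcases lt_or_eq_of_le hρ2 with h | h
    · exact h
    · rw [h] at hρ; norm_num at hρ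
  set s : ℝ := (4 - ρ) / 2 with hs
  set q : ℝ := ρ ^ 2 - 4 * ρ + 5 with hq
  have hρq : ρ * q = 1 := by rw [hq]; linarith
  have hy0 : 0 < q - s ^ 2 := by rw [hq, hs]; nlinarith
  set y : ℝ := Real.sqrt (q - s ^ 2) with hy
  have hy2 : y ^ 2 = q - s ^ 2 := Real.sq_sqrt hy0.le
  have hypos : 0 < y := Real.sqrt_pos.mpr hy0
  set γ : ℂ := ⟨s, y⟩ with hγ
  have hnorm : ‖γ‖ ^ 2 = q := by
    rw [← Complex.normSq_eq_norm_sq, Complex.normSq_apply, hγ]
    simp only
    nlinarith
  have hq4 : 4 < q := by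
    by_contra hcon
    push Not at hcon
    nlinarith
  have hq5 : q < 5 := by rw [hq]; nlinarith
  have hn2 : 2 < ‖γ‖ := by
    have := norm_nonneg γ
    nlinarith
  -- the factorization
  have hfac : ∀ z : ℂ, z ^ 3 - 4 * z ^ 2 + 5 * z - 1 =
      (z - (ρ : ℂ)) * ((z - γ) * (z - (starRingEnd ℂ) γ)) := by
    intro z
    have e1 : γ + (starRingEnd ℂ) γ = ((4 - ρ : ℝ) : ℂ) := by
      rw [Complex.add_conj, hγ]
      simp only [hs]
      push_cast
      ring
    have e2 : γ * (starRingEnd ℂ) γ = ((q : ℝ) : ℂ) := by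
      rw [Complex.mul_conj, Complex.normSq_eq_norm_sq, hnorm]
    have e3 : (z - γ) * (z - (starRingEnd ℂ) γ) = z ^ 2 - (γ + (starRingEnd ℂ) γ) * z +
        γ * (starRingEnd ℂ) γ := by ring
    have e4 : ((ρ * q : ℝ) : ℂ) = 1 := by rw [hρq]; simp
    rw [e3, e1, e2]
    push_cast at e4 ⊢
    have e5 : (q : ℂ) = (ρ : ℂ) ^ 2 - 4 * ρ + 5 := by rw [hq]; push_cast; ring
    linear_combination e4 - z * e5
  have hγroot : γ ^ 3 - 4 * γ ^ 2 + 5 * γ - 1 = 0 := by rw [hfac]; ring
  have hint : IsIntegral ℤ γ := by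
    refine ⟨Polynomial.X ^ 3 - Polynomial.C 4 * Polynomial.X ^ 2 + Polynomial.C 5 * Polynomial.X -
      Polynomial.C 1, ?_, ?_⟩
    · monicity!
    · simp only [Polynomial.eval₂_sub, Polynomial.eval₂_add, Polynomial.eval₂_mul,
        Polynomial.eval₂_X_pow, Polynomial.eval₂_X, Polynomial.eval₂_C]
      simpa using hγroot
  have hγ0 : γ ≠ 0 := by
    intro h
    rw [h] at hγroot
    norm_num at hγroot
  have hinv : γ⁻¹ = γ ^ 2 - 4 * γ + 5 := by
    field_simp
    linear_combination -hγroot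
  have hint4 : IsIntegral ℤ (4 : ℂ) := by simpa using isIntegral_algebraMap (R := ℤ) (A := ℂ) (x := 4)
  have hint5 : IsIntegral ℤ (5 : ℂ) := by simpa using isIntegral_algebraMap (R := ℤ) (A := ℂ) (x := 5)
  refine ⟨γ, ⟨hint, ?_, ?_, by linarith, ?_⟩, ?_, ?_⟩
  · rw [hinv]
    exact ((hint.pow 2).sub (hint4.mul hint)).add hint5
  · rw [hγ]
    exact hypos.ne'
  · intro z hz
    have hdvd : minpoly ℚ γ ∣ Polynomial.X ^ 3 - Polynomial.C 4 * Polynomial.X ^ 2 +
        Polynomial.C 5 * Polynomial.X - Polynomial.C 1 := by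
      apply minpoly.dvd
      simp only [map_sub, map_add, map_mul, map_pow, Polynomial.aeval_X, Polynomial.aeval_C]
      simpa using hγroot
    obtain ⟨w, hw⟩ := hdvd
    have h1 := congrArg (Polynomial.aeval z) hw
    rw [map_mul, hz, zero_mul] at h1
    simp only [map_sub, map_add, map_mul, map_pow, Polynomial.aeval_X, Polynomial.aeval_C] at h1
    have h2 : z ^ 3 - 4 * z ^ 2 + 5 * z - 1 = 0 := by simpa using h1
    rw [hfac] at h2
    rcases mul_eq_zero.mp h2 with h | h
    · right; right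
      rw [sub_eq_zero.mp h, Complex.norm_real, Real.norm_eq_abs, abs_of_pos (by linarith)]
      linarith
    · rcases mul_eq_zero.mp h with h | h
      · left; exact sub_eq_zero.mp h
      · right; left; exact sub_eq_zero.mp h
  · rw [hnorm]
    push_cast
    linarith
  · apply criterion γ hn2
    · intro t ht
      interval_cases t
      · simp
      · rw [pow_one, hγ]
        simp only [hs]
        linarith
      · have : (γ ^ 2).re = s ^ 2 - y ^ 2 := by
          rw [pow_two, Complex.mul_re, hγ]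
          simp only
          ring
        rw [this, hy2, hs, hq]
        nlinarith
      · have : (γ ^ 3).re = s * (s ^ 2 - 3 * y ^ 2) := by
          rw [pow_succ, pow_two, Complex.mul_re, Complex.mul_re, Complex.mul_im, hγ]
          simp only
          ring
        rw [this, hy2]
        apply mul_nonneg
        · rw [hs]; linarith
        · rw [hs, hq]; nlinarith
    · rw [hnorm]
      push_cast
      linarith

/-- Q1 is false, also for complex Pisot units. If `|γ| > 2` and `γ, γ², γ³` have nonnegative real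
part, then `X^m(γ)` is not relatively dense in `ℂ` for all `m ≤ |γ|²`; for example for `γ = 2 + i` and
`m = 5`, where `|γ|² - 1 = 4`. There are a complex Pisot unit `γ` and an integer `m > |γ|² - 1` such
that `X^m(γ)` is not relatively dense in `ℂ`. -/
theorem result :
    (∀ γ : ℂ, 2 < ‖γ‖ → (∀ t ≤ 3, 0 ≤ (γ ^ t).re) → ∀ m : ℕ, (m : ℝ) ≤ ‖γ‖ ^ 2 →
      ¬ RelativelyDense (digitPolynomials m γ)) ∧
    (‖(2 + Complex.I : ℂ)‖ ^ 2 - 1 < (5 : ℕ) ∧
      ¬ RelativelyDense (digitPolynomials 5 (2 + Complex.I))) ∧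
    ∃ γ : ℂ, IsComplexPisotUnit γ ∧ ∃ m : ℕ, ‖γ‖ ^ 2 - 1 < m ∧
      ¬ RelativelyDense (digitPolynomials m γ) := by
  refine ⟨fun γ h1 h2 m h3 => criterion γ h1 h2 m h3, ⟨?_, gaussian⟩, ?_⟩
  · rw [← Complex.normSq_eq_norm_sq, Complex.normSq_apply]
    simp
    norm_num
  · obtain ⟨γ, h1, h2, h3⟩ := pisot
    exact ⟨γ, h1, 4, h2, h3⟩

end Pool.Agent.Results.MP_85e029_nt.NotRelativelyDense
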